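import Pool.Agent.Helper70.QRH.Cls
import Pool.Agent.Helper79.RG.Sieve

/-!
# Project QRH: class I (one large ordinary prime)
-/

set_option autoImplicit false
open Filter Topology
open scoped Classical

namespace Pool.Agent.Helper70.QRH

open Pool.Agent.Helper10.QRH

/-- upper bound for the number of primes `p` with `r * p` in a short interval -/
theorem prime_mult : ∃ C : ℝ, 0 < C ∧ ∀ x h r : ℕ, 0 < r → ∀ T : Finset ℕ,
    (∀ p ∈ T, p.Prime ∧ x ≤ r * p ∧ r * p < x + h) →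
    (T.card : ℝ) ≤ C * ((h / r + 2 : ℕ) : ℝ) / Real.log ((h / r + 2 : ℕ) : ℝ) := by
  obtain ⟨C, hC, H⟩ := Pool.Agent.Helper79.RG.tuple_sieve 1 one_pos
  refine ⟨C, hC, ?_⟩
  intro x h r hr T hT
  set y := (x + r - 1) / r with hy
  have hxy : x ≤ r * y := by
    have h1 := Nat.lt_mul_div_succ (x + r - 1) hr
    rw [← hy, mul_add, mul_one] at h1
    omega
  have hyp : ∀ p ∈ T, y ≤ p := by
    intro p hp
    obtain ⟨-, h1, -⟩ := hT p hp
    rw [hy]
    have h2 : x + r - 1 < r * (p + 1) := by rw [mul_add, mul_one]; omega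
    have := (Nat.div_lt_iff_lt_mul hr).mpr (by rw [mul_comm]; exact h2 : x + r - 1 < (p + 1) * r)
    omega
  have h1 := H (fun _ => y) (Function.injective_of_subsingleton _) (h / r + 2)
    (Nat.le_add_left 2 _)
  have h2 : Pool.Agent.Helper79.RG.sigT (fun _ : Fin 1 => y) = 0 := by
    simp [Pool.Agent.Helper79.RG.sigT]
  rw [h2, mul_zero, Real.exp_zero, mul_one, pow_one] at h1
  refine le_trans ?_ h1
  norm_cast
  apply Finset.card_le_card_of_injOn (fun p => p - y)
  · intro p hp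
    have hp' : p ∈ T := hp
    have h3 := hyp p hp'
    obtain ⟨h4, h5, h6⟩ := hT p hp'
    rw [Finset.mem_coe, Finset.mem_filter, Finset.mem_range]
    refine ⟨?_, fun _ => ?_⟩
    · have h7 : r * (p - y) < h := by
        rw [Nat.mul_sub]
        omega
      have h8 := (Nat.le_div_iff_mul_le hr).mpr (by rw [mul_comm]; exact h7.le : (p - y) * r ≤ h)
      show p - y < h / r + 2
      omega
    · simp only
      rw [Nat.sub_add_cancel h3]
      exact h4
  · intro p hp q hq hpq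
    have h3 := hyp p hp
    have h4 := hyp q hq
    simp only at hpq
    omega

theorem class1 (P : Par) (h0 : PhiFacts P) (hc : CellFacts P) (h1 : SizeFacts P) (hw : WFacts P)
    (hs : SumWW P) : Class1 P := by
  intro ε hε
  obtain ⟨C, hC, hBT⟩ := prime_mult
  obtain ⟨K1, hK1⟩ := h1
  obtain ⟨K3, hK3⟩ := hs (ε / (64 * C * 2000)) (by positivity)
  have hκ0 := P.κ0
  obtain ⟨hν0, hν1, hνκ, -, -, hd, hs, hg0, hg1, -⟩ := h0.small
  refine ⟨max K1 (max K3 20), fun k0 hk0 hFB S k hk j hj => ?_⟩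
  have hk1 : K1 ≤ k := by omega
  have hk3 : K3 ≤ k0 := by omega
  have hk01 : 1 ≤ k0 := by omega
  have hkp : 20 ≤ k := by omega
  have hkr : (20 : ℝ) ≤ k := by exact_mod_cast hkp
  obtain ⟨-, -, he1, -, -, -, -, -, -⟩ := hK1 k hk1
  have hR := hK3 k0 hk3 hFB S
  have hl2 : (0.69 : ℝ) < Real.log 2 := by
    have := Real.log_two_gt_d9
    linarith
  set F := (P.cell k j).filter (fun n => n ∉ S.own k j ∧
      ∃ p, P.Ord k0 p ∧ p ∣ n ∧ (2 : ℝ) ^ (0.8 * (k : ℝ)) ≤ p) with hF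
  have hb : ∀ n ∈ F, ∃ p : ℕ, P.Ord k0 p ∧ p ∣ n ∧ (2 : ℝ) ^ (0.8 * (k : ℝ)) ≤ p := by
    intro n hn
    rw [hF, Finset.mem_filter] at hn
    exact hn.2.2
  choose! pf hpf using hb
  set bf : ℕ → ℕ := fun n => n / pf n with hbf
  have hall : ∀ n ∈ F, (pf n).Prime ∧ P.Ord k0 (pf n) ∧ (2 : ℝ) ^ (0.8 * (k : ℝ)) ≤ pf n ∧
      bf n * pf n = n ∧ 2 ≤ bf n ∧ 2 ^ k ≤ n ∧ n < 2 ^ (k + 1) ∧
      2 ^ k + j * 2 ^ P.e k ≤ n ∧ n < 2 ^ k + j * 2 ^ P.e k + 2 ^ P.e k := by
    intro n hn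
    obtain ⟨c1, c2, c3⟩ := hpf n hn
    rw [hF, Finset.mem_filter] at hn
    obtain ⟨hn1, hn2, -⟩ := hn
    obtain ⟨hn0, hlog, hidx, hlo, hup, hlo', hup'⟩ := mem_cell' hc hj hn1
    have hmul : bf n * pf n = n := Nat.div_mul_cancel c2
    refine ⟨c1.1, c1, c3, hmul, ?_, hlo, hup, hlo', hup'⟩
    by_contra hcon
    have h01 : bf n = 0 ∨ bf n = 1 := by omega
    rcases h01 with h | h
    · rw [h, zero_mul] at hmul
      exact hn0 hmul.symm
    · rw [h, one_mul] at hmul
      apply hn2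
      unfold Par.Sel.own
      rw [Finset.mem_filter]
      refine ⟨hn1, Or.inr ⟨?_, ?_⟩⟩
      · have h3 := c1.2.2.1
        rw [hmul] at h3
        rcases h3 with h3 | h3
        · exfalso
          have h4 : 2 ^ k0 ≤ 2 ^ k := Nat.pow_le_pow_right (by norm_num) hk
          omega
        · unfold Par.badN at h3
          rw [hlog, hidx] at h3
          exact h3
      · rw [hmul] at c1
        exact c1
  set M : ℕ → ℝ := fun r => S.WW r * ((2 : ℝ) ^ ((P.s - 1) * k) * (r : ℝ) ^ (1 - P.s) *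
    (4 / (k : ℝ) ^ 2)) with hM
  set N : ℕ → ℝ := fun r => 16 * C * (2 : ℝ) ^ P.e k / (r * k) with hN
  have hsum := sum_fib F bf S.WW M N (by
    intro n hn
    obtain ⟨c1, c2, c3, c4, c5, c6, -⟩ := hall n hn
    have hb0 : 0 < bf n := by omega
    have e1 : S.WW n = S.WW (bf n) * S.WW (pf n) := by
      have := hw.WW_mul S hb0.ne' c1.ne_zero
      rw [c4] at this
      exact this
    rw [e1, hM]
    simp only
    apply mul_le_mul_of_nonneg_left _ (hw.WW_nonneg S hk01 _)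
    rw [hw.WW_prime S c1]
    have hnc : ¬ S.ctrl (pf n) := by
      intro hcon
      exact (hw.ctrl_prime S hcon).2.2.1 c2
    unfold Par.Sel.wt
    rw [if_neg hnc, if_pos c2]
    unfold Par.phi
    have ht : P.s - 1 ≤ 0 := by rw [hs]; linarith
    have hcof := cof_le (k := k) (b := bf n) (a := pf n) hb0 (by rw [c4]; exact c6) ht
    rw [show -(P.s - 1) = 1 - P.s by ring] at hcof
    have hlogp : 0.8 * (k : ℝ) * Real.log 2 ≤ Real.log (pf n) := by
      rw [← Real.log_rpow (by norm_num)]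
      exact Real.log_le_log (by positivity) c3
    have hlogp' : (0.5 : ℝ) * k ≤ Real.log (pf n) := by nlinarith
    have hden : 1 / (Real.log (pf n)) ^ 2 ≤ 4 / (k : ℝ) ^ 2 := by
      have hlp : 0 < Real.log (pf n) := by linarith
      rw [div_le_div_iff₀ (by positivity) (by positivity)]
      nlinarith
    calc (pf n : ℝ) ^ (P.s - 1) / Real.log (pf n) ^ 2
        = (pf n : ℝ) ^ (P.s - 1) * (1 / Real.log (pf n) ^ 2) := by ring
      _ ≤ ((2 : ℝ) ^ ((P.s - 1) * k) * (bf n : ℝ) ^ (1 - P.s)) * (4 / (k : ℝ) ^ 2) :=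
          mul_le_mul hcof hden (by positivity) (by positivity)) (by
    intro b hb
    rw [hM]
    exact mul_nonneg (hw.WW_nonneg S hk01 _) (by positivity)) (by
    intro r hr
    rw [Finset.mem_image] at hr
    obtain ⟨n0, hn0, rfl⟩ := hr
    obtain ⟨c1, c2, c3, c4, c5, c6, c7, -⟩ := hall n0 hn0
    set r := bf n0 with hr
    have hr0 : 0 < r := by omega
    have hr0' : (0 : ℝ) < r := by exact_mod_cast hr0
    -- size of `r`
    have hrle : (r : ℝ) < (2 : ℝ) ^ (0.2 * (k : ℝ) + 1) := by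
      have e1 : (r : ℝ) * pf n0 < (2 : ℝ) ^ ((k : ℝ) + 1) := by
        have : ((r * pf n0 : ℕ) : ℝ) < ((2 ^ (k + 1) : ℕ) : ℝ) := by
          rw [c4]; exact_mod_cast c7
        push_cast at this
        rw [show ((k : ℝ) + 1) = ((k + 1 : ℕ) : ℝ) by push_cast; ring, Real.rpow_natCast]
        exact this
      have e2 : (2 : ℝ) ^ ((k : ℝ) + 1) = (2 : ℝ) ^ (0.2 * (k : ℝ) + 1) * (2 : ℝ) ^ (0.8 * (k : ℝ)) := by
        rw [← Real.rpow_add (by norm_num)]
        congr 1
        ring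
      rw [e2] at e1
      by_contra hcon
      push Not at hcon
      have e3 : (2 : ℝ) ^ (0.2 * (k : ℝ) + 1) * (2 : ℝ) ^ (0.8 * (k : ℝ)) ≤ (r : ℝ) * pf n0 :=
        mul_le_mul hcon c3 (by positivity) (by positivity)
      linarith
    have hbig : (2 : ℝ) ^ (0.2 * (k : ℝ)) ≤ (2 : ℝ) ^ P.e k / r := by
      rw [le_div_iff₀ hr0']
      have e1 : (2 : ℝ) ^ (0.2 * (k : ℝ)) * r ≤ (2 : ℝ) ^ (0.2 * (k : ℝ)) *
          (2 : ℝ) ^ (0.2 * (k : ℝ) + 1) := mul_le_mul_of_nonneg_left hrle.le (by positivity)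
      refine e1.trans (le_trans ?_ he1)
      rw [← Real.rpow_add (by norm_num)]
      apply Real.rpow_le_rpow_of_exponent_le (by norm_num)
      nlinarith
    have h2big : (2 : ℝ) ≤ (2 : ℝ) ^ P.e k / r := by
      refine le_trans ?_ hbig
      calc (2 : ℝ) = (2 : ℝ) ^ (1 : ℝ) := by rw [Real.rpow_one]
        _ ≤ _ := Real.rpow_le_rpow_of_exponent_le (by norm_num) (by linarith)
    have hcard : (F.filter (fun n => bf n = r)).card ≤
        ((F.filter (fun n => bf n = r)).image pf).card := by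
      rw [Finset.card_image_of_injOn]
      intro n hn m hm hnm
      rw [Finset.mem_coe, Finset.mem_filter] at hn hm
      have e1 := (hall n hn.1).2.2.2.1
      have e2 := (hall m hm.1).2.2.2.1
      rw [hn.2] at e1
      rw [hm.2] at e2
      rw [← e1, ← e2, hnm]
    have hcard' : ((F.filter (fun n => bf n = r)).card : ℝ) ≤
        (((F.filter (fun n => bf n = r)).image pf).card : ℝ) := by exact_mod_cast hcard
    have hBT' := hBT (2 ^ k + j * 2 ^ P.e k) (2 ^ P.e k) r hr0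
      ((F.filter (fun n => bf n = r)).image pf) (by
        intro p hp
        rw [Finset.mem_image] at hp
        obtain ⟨n, hn, rfl⟩ := hp
        rw [Finset.mem_filter] at hn
        obtain ⟨d1, d2, d3, d4, d5, d6, d7, d8, d9⟩ := hall n hn.1
        rw [hn.2] at d4
        rw [d4]
        exact ⟨d1, d8, d9⟩)
    refine hcard'.trans (hBT'.trans ?_)
    set N' : ℕ := 2 ^ P.e k / r + 2 with hN'
    have hup : (N' : ℝ) ≤ 2 * ((2 : ℝ) ^ P.e k / r) := by
      have e1 : ((2 ^ P.e k / r : ℕ) : ℝ) ≤ (2 : ℝ) ^ P.e k / r := by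
        have := @Nat.cast_div_le ℝ _ _ _ (2 ^ P.e k) r
        push_cast at this
        exact this
      rw [hN']
      push_cast
      linarith
    have hlow : (2 : ℝ) ^ P.e k / r ≤ N' := by
      rw [div_le_iff₀ hr0']
      have e1 := Nat.lt_mul_div_succ (2 ^ P.e k) hr0
      have e2 : 2 ^ P.e k ≤ N' * r := by
        rw [hN']
        calc 2 ^ P.e k ≤ r * (2 ^ P.e k / r + 1) := e1.le
          _ ≤ (2 ^ P.e k / r + 2) * r := by rw [mul_comm r]; exact Nat.mul_le_mul_right _ (by omega)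
      have e3 : ((2 ^ P.e k : ℕ) : ℝ) ≤ ((N' * r : ℕ) : ℝ) := by exact_mod_cast e2
      push_cast at e3
      exact e3
    have hN'0 : (0 : ℝ) < N' := by
      have : (0 : ℝ) < (2 : ℝ) ^ P.e k / r := by positivity
      linarith
    have hlogN : (k : ℝ) / 8 ≤ Real.log N' := by
      have e1 := Real.log_le_log (by positivity) (hbig.trans hlow)
      rw [Real.log_rpow (by norm_num)] at e1
      nlinarith
    rw [hN]
    simp only
    calc C * (N' : ℝ) / Real.log N' ≤ C * (2 * ((2 : ℝ) ^ P.e k / r)) / ((k : ℝ) / 8) := by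
          apply div_le_div₀ (by positivity) _ (by positivity) hlogN
          exact mul_le_mul_of_nonneg_left hup hC.le
      _ = 16 * C * (2 : ℝ) ^ P.e k / (r * k) := by
          field_simp
          ring)
  refine hsum.trans ?_
  have hterm : ∀ b ∈ F.image bf, N b * M b =
      (64 * C * (2 : ℝ) ^ P.e k * (2 : ℝ) ^ ((P.s - 1) * k) / (k : ℝ) ^ 3) *
        (S.WW b * (b : ℝ) ^ (-P.s)) := by
    intro b hb
    have hb0 : (0 : ℝ) < b := by
      rw [Finset.mem_image] at hb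
      obtain ⟨n, hn, rfl⟩ := hb
      have := (hall n hn).2.2.2.2.1
      exact_mod_cast (by omega : 0 < bf n)
    have e1 : (b : ℝ) ^ (1 - P.s) = b * (b : ℝ) ^ (-P.s) := by
      rw [show (1 : ℝ) - P.s = 1 + (-P.s) by ring, Real.rpow_add hb0, Real.rpow_one]
    rw [hN, hM]
    simp only
    rw [e1]
    field_simp
    ring
  rw [Finset.sum_congr rfl hterm, ← Finset.mul_sum]
  have hRk := hR (F.image bf) (fun b hb => by
    rw [Finset.mem_image] at hb
    obtain ⟨n, hn, rfl⟩ := hb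
    exact (hall n hn).2.2.2.2.1)
  have hpos : (0 : ℝ) ≤ 64 * C * (2 : ℝ) ^ P.e k * (2 : ℝ) ^ ((P.s - 1) * k) / (k : ℝ) ^ 3 := by
    positivity
  refine (mul_le_mul_of_nonneg_left hRk hpos).trans (le_of_eq ?_)
  unfold Par.Gk
  field_simp

end Pool.Agent.Helper70.QRH
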