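import Pool.Agent.Helper70.QRH.Cls

/-!
# Project QRH: class II (small control part, no large ordinary prime)
-/

set_option autoImplicit false
open Filter Topology
open scoped Classical

namespace Pool.Agent.Helper70.QRH

open Pool.Agent.Helper10.QRH

theorem sum_le_prod : ∀ l : List ℝ, (∀ a ∈ l, 2 ≤ a) →
    l.sum ≤ l.prod ∧ 1 ≤ l.prod ∧ (l ≠ [] → 2 ≤ l.prod) := by
  intro l
  induction l with
  | nil => intro _; simp
  | cons a l ih =>
    intro h
    have ha : 2 ≤ a := h a (by simp)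
    obtain ⟨h1, h2, h3⟩ := ih (fun b hb => h b (by simp [hb]))
    rw [List.sum_cons, List.prod_cons]
    refine ⟨?_, by nlinarith, fun _ => by nlinarith⟩
    by_cases hl : l = []
    · rw [hl]; simp
    · have h4 := h3 hl
      nlinarith [mul_nonneg (by linarith : (0 : ℝ) ≤ a - 2) (by linarith : (0 : ℝ) ≤ l.prod - 2)]

theorem list_split {M : ℝ} (hM : 0 ≤ M) : ∀ (l : List ℝ) (δ : ℝ), 0 ≤ δ →
    (∀ a ∈ l, 0 ≤ a ∧ a ≤ M) → δ ≤ l.sum →
    ∃ l1 l2 : List ℝ, l = l1 ++ l2 ∧ δ ≤ l1.sum ∧ l1.sum ≤ δ + M := by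
  intro l
  induction l with
  | nil =>
    intro δ h0 _ h
    exact ⟨[], [], rfl, h, by simp only [List.sum_nil]; linarith⟩
  | cons a l ih =>
    intro δ h0 h hs
    have ha := h a (by simp)
    by_cases hδ : δ ≤ a
    · exact ⟨[a], l, rfl, by simpa using hδ, by
        simp only [List.sum_cons, List.sum_nil, add_zero]; linarith⟩
    · push Not at hδ
      rw [List.sum_cons] at hs
      obtain ⟨l1, l2, e1, e2, e3⟩ := ih (δ - a) (by linarith) (fun b hb => h b (by simp [hb]))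
        (by linarith)
      refine ⟨a :: l1, l2, by rw [e1]; rfl, ?_, ?_⟩
      · rw [List.sum_cons]; linarith
      · rw [List.sum_cons]; linarith

/-- lists of numbers `≥ 2`, none of them too large: the product is at least quadratic -/
theorem prod_ge {K : ℝ} (hK : 0 ≤ K) (l : List ℝ) (h2 : ∀ a ∈ l, 2 ≤ a ∧ a ≤ 0.8 * K)
    (hs : 0.95 * K ≤ l.sum) : (0.07 * K) ^ 2 ≤ l.prod := by
  obtain ⟨l1, l2, e1, e2, e3⟩ := list_split (M := 0.8 * K) (by positivity) l (0.07 * K)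
    (by positivity) (fun a ha => ⟨by linarith [(h2 a ha).1], (h2 a ha).2⟩) (by nlinarith)
  have h3 : l.sum = l1.sum + l2.sum := by rw [e1, List.sum_append]
  have h4 : l.prod = l1.prod * l2.prod := by rw [e1, List.prod_append]
  obtain ⟨p1, -, -⟩ := sum_le_prod l1 (fun a ha => (h2 a (by rw [e1]; simp [ha])).1)
  obtain ⟨p2, -, -⟩ := sum_le_prod l2 (fun a ha => (h2 a (by rw [e1]; simp [ha])).1)
  rw [h4, sq]
  apply mul_le_mul (by linarith) (by linarith) (by positivity) (by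
    have : 0 ≤ 0.07 * K := by positivity
    linarith)

theorem log_prod_list : ∀ l : List ℕ, (∀ p ∈ l, p ≠ 0) →
    Real.log ((l.prod : ℕ) : ℝ) = (l.map (fun p : ℕ => Real.log (p : ℝ))).sum := by
  intro l
  induction l with
  | nil => intro _; simp
  | cons a l ih =>
    intro h
    have ha : a ≠ 0 := h a (by simp)
    have hl : l.prod ≠ 0 := by
      intro h0
      rw [List.prod_eq_zero_iff] at h0
      exact h 0 (by simp [h0]) rfl
    rw [List.prod_cons, Nat.cast_mul, Real.log_mul (by exact_mod_cast ha) (by exact_mod_cast hl),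
      List.map_cons, List.sum_cons, ih (fun b hb => h b (by simp [hb]))]

theorem phi_prod_list (P : Par) : ∀ l : List ℕ,
    (l.map (fun p : ℕ => P.phi (p : ℝ))).prod = ((l.prod : ℕ) : ℝ) ^ (P.s - 1) /
      ((l.map (fun p : ℕ => Real.log (p : ℝ))).prod) ^ 2 := by
  intro l
  induction l with
  | nil => simp
  | cons a l ih =>
    rw [List.map_cons, List.prod_cons, ih, List.prod_cons, Nat.cast_mul, List.map_cons,
      List.prod_cons, Real.mul_rpow (Nat.cast_nonneg _) (Nat.cast_nonneg _)]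
    unfold Par.phi
    rw [mul_pow, div_mul_div_comm]

/-- the weight of a product of ordinary primes which has no very large prime factor -/
theorem WW_le {P : Par} {k0 : ℕ} (S : P.Sel k0) {r : ℕ} (hr : r ≠ 0) {K : ℝ} (hK : 0 < K)
    (hlog : 0.95 * K ≤ Real.log r)
    (hp : ∀ p : ℕ, p.Prime → p ∣ r → ¬ S.ctrl p ∧ P.Ord k0 p ∧ 2 ≤ Real.log p ∧
      Real.log p ≤ 0.8 * K) :
    S.WW r ≤ (r : ℝ) ^ (P.s - 1) / ((0.07 * K) ^ 2) ^ 2 := by
  have h1 : S.WW r = (r.primeFactorsList.map (fun p : ℕ => P.phi (p : ℝ))).prod := by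
    unfold Par.Sel.WW
    congr 1
    apply List.map_congr_left
    intro p hpl
    obtain ⟨c1, c2, -⟩ := hp p (Nat.prime_of_mem_primeFactorsList hpl)
      (Nat.dvd_of_mem_primeFactorsList hpl)
    unfold Par.Sel.wt
    rw [if_neg c1, if_pos c2]
  have h2 : (r.primeFactorsList.prod : ℕ) = r := Nat.prod_primeFactorsList hr
  have h3 := log_prod_list r.primeFactorsList (fun p hpl =>
    (Nat.prime_of_mem_primeFactorsList hpl).ne_zero)
  rw [h1, phi_prod_list, h2]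
  rw [h2] at h3
  have h4 := prod_ge hK.le (r.primeFactorsList.map (fun p : ℕ => Real.log (p : ℝ))) (by
    intro a ha
    rw [List.mem_map] at ha
    obtain ⟨p, hpl, rfl⟩ := ha
    exact (hp p (Nat.prime_of_mem_primeFactorsList hpl)
      (Nat.dvd_of_mem_primeFactorsList hpl)).2.2) (by rw [← h3]; exact hlog)
  apply div_le_div_of_nonneg_left (by positivity) (by positivity)
  apply pow_le_pow_left₀ (by positivity) h4

theorem class2 (P : Par) (h0 : PhiFacts P) (hc : CellFacts P) (h1 : SizeFacts P) (hw : WFacts P)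
    (hr : Rankin P) : Class2 P := by
  intro ε hε
  obtain ⟨K1, hK1⟩ := h1
  obtain ⟨K3, hK3⟩ := hr
  have hκ0 := P.κ0
  have hη0 := P.η0
  obtain ⟨hν0, hν1, hνκ, -, -, hd, hs, hg0, hg1, -⟩ := h0.small
  refine ⟨max (max K1 (⌈3 / P.η⌉₊)) (max K3 (max (⌈4 * 390625 * 2000 / ε⌉₊) 1)),
    fun k0 hk0 hFB S k hk j hj => ?_⟩
  have hk1 : K1 ≤ k := by omega
  have hk2 : ⌈3 / P.η⌉₊ ≤ k0 := by omega
  have hk3 : K3 ≤ k0 := by omega
  have hk4 : ⌈4 * 390625 * 2000 / ε⌉₊ ≤ k := by omega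
  have hk01 : 1 ≤ k0 := by omega
  have hkp : 1 ≤ k := by omega
  have hkr : (1 : ℝ) ≤ k := by exact_mod_cast hkp
  have hP1 : 8 ≤ P.P1 k0 := by
    unfold Par.P1
    have e1 : 3 ≤ ⌊P.η * k0⌋₊ := by
      apply Nat.le_floor
      rw [Nat.ceil_le, div_le_iff₀ hη0] at hk2
      push_cast
      linarith
    calc 8 = 2 ^ 3 := by norm_num
      _ ≤ _ := Nat.pow_le_pow_right (by norm_num) e1
  have hkε : 4 * 390625 * 2000 ≤ ε * k := by
    rw [Nat.ceil_le, div_le_iff₀ hε] at hk4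
    linarith
  obtain ⟨-, -, he1, -, -, -, -, -, -⟩ := hK1 k hk1
  have hR := hK3 k0 hk3 hFB S
  have hl2 : (0.69 : ℝ) < Real.log 2 := by
    have := Real.log_two_gt_d9
    linarith
  set F := (P.cell k j).filter (fun n =>
      (¬ ∃ p, P.Ord k0 p ∧ p ∣ n ∧ (2 : ℝ) ^ (0.8 * (k : ℝ)) ≤ p) ∧
      (S.cp n : ℝ) < (2 : ℝ) ^ ((k : ℝ) / 20)) with hF
  set M : ℕ → ℝ := fun b => S.WW b * ((2 : ℝ) ^ ((P.s - 1) * k) * (b : ℝ) ^ (1 - P.s) *
    (390625 / (k : ℝ) ^ 4)) with hM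
  set N : ℕ → ℝ := fun b => 2 * (2 : ℝ) ^ P.e k / b with hN
  have hcpF : ∀ n ∈ F, n ≠ 0 ∧ 2 ^ k ≤ n ∧ S.cp n ∣ n ∧ S.cp n ≠ 0 ∧
      (S.cp n : ℝ) < (2 : ℝ) ^ ((k : ℝ) / 20) ∧
      S.WW n = S.WW (S.cp n) * S.WW (n / S.cp n) ∧
      (∀ p : ℕ, p.Prime → p ∣ S.cp n → S.ctrl p) ∧
      (∀ p : ℕ, p.Prime → p ∣ n / S.cp n → ¬ S.ctrl p) ∧
      (∀ p : ℕ, P.Ord k0 p → p ∣ n → (p : ℝ) < (2 : ℝ) ^ (0.8 * (k : ℝ))) := by
    intro n hn
    rw [hF, Finset.mem_filter] at hn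
    obtain ⟨hn1, hn2, hn3⟩ := hn
    obtain ⟨hn0, -, -, hnk, -⟩ := mem_cell' hc hj hn1
    obtain ⟨c1, c2, c3, c4, c5⟩ := hw.cp_facts S hn0
    refine ⟨hn0, hnk, c1, c2, hn3, c3, c4, c5, ?_⟩
    intro p hp hpd
    by_contra hcon
    push Not at hcon
    exact hn2 ⟨p, hp, hpd, hcon⟩
  have hbF : ∀ b ∈ F.image S.cp, (b : ℝ) < (2 : ℝ) ^ ((k : ℝ) / 20) ∧ 0 < b ∧
      (∀ p : ℕ, p.Prime → p ∣ b → S.ctrl p) := by
    intro b hb
    rw [Finset.mem_image] at hb
    obtain ⟨n, hn, rfl⟩ := hb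
    obtain ⟨c0, c1, c2, c3, c4, c5, c6, c7, c8⟩ := hcpF n hn
    exact ⟨c4, Nat.pos_of_ne_zero c3, c6⟩
  have hsum := sum_fib F S.cp S.WW M N (by
    intro n hn
    obtain ⟨c0, c1, c2, c3, c4, c5, c6, c7, c8⟩ := hcpF n hn
    have hM0 : 0 ≤ M (S.cp n) := by
      rw [hM]
      exact mul_nonneg (hw.WW_nonneg S hk01 _) (by positivity)
    by_cases hWW : S.WW n = 0
    · rw [hWW]; exact hM0
    set b := S.cp n with hb
    set r := n / b with hr
    have hbr : b * r = n := Nat.mul_div_cancel' c2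
    have hb0 : 0 < b := Nat.pos_of_ne_zero c3
    have hr0 : r ≠ 0 := by
      intro h
      rw [h, mul_zero] at hbr
      exact c0 hbr.symm
    have hb0' : (0 : ℝ) < b := by exact_mod_cast hb0
    have hr0' : (0 : ℝ) < r := by exact_mod_cast Nat.pos_of_ne_zero hr0
    rw [c5, hM]
    simp only
    apply mul_le_mul_of_nonneg_left _ (hw.WW_nonneg S hk01 _)
    have hK : 0 < (k : ℝ) * Real.log 2 := by positivity
    have hlogr : 0.95 * ((k : ℝ) * Real.log 2) ≤ Real.log r := by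
      have e1 : (k : ℝ) * Real.log 2 ≤ Real.log b + Real.log r := by
        rw [← Real.log_mul hb0'.ne' hr0'.ne']
        have e2 : ((2 : ℝ) ^ k) ≤ b * r := by
          have : ((2 ^ k : ℕ) : ℝ) ≤ ((b * r : ℕ) : ℝ) := by rw [hbr]; exact_mod_cast c1
          push_cast at this
          exact this
        have e3 := Real.log_le_log (by positivity) e2
        rw [Real.log_pow] at e3
        exact e3
      have e4 : Real.log b ≤ (k : ℝ) / 20 * Real.log 2 := by
        rw [← Real.log_rpow (by norm_num)]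
        exact Real.log_le_log hb0' c4.le
      linarith
    have hWr := WW_le S hr0 hK hlogr (by
      intro p hp hpr
      have hpn : p ∣ n := hpr.trans (Dvd.intro_left _ hbr)
      have hnc := c7 p hp hpr
      have hOrd : P.Ord k0 p := (hw.ne_zero S c0 hWW hp hpn).resolve_left hnc
      refine ⟨hnc, hOrd, ?_, ?_⟩
      · have e1 : (8 : ℝ) ≤ p := by exact_mod_cast hP1.trans hOrd.2.1
        have e2 := Real.log_le_log (by norm_num) e1
        have e3 : Real.log 8 = 3 * Real.log 2 := by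
          rw [show (8 : ℝ) = 2 ^ 3 by norm_num, Real.log_pow]; norm_num
        linarith
      · have e1 := c8 p hOrd hpn
        have e2 := Real.log_le_log (by exact_mod_cast hp.pos) e1.le
        rw [Real.log_rpow (by norm_num)] at e2
        linarith)
    refine hWr.trans ?_
    have ht : P.s - 1 ≤ 0 := by rw [hs]; linarith
    have hcof := cof_le (k := k) (b := b) (a := r) hb0 (by rw [hbr]; exact c1) ht
    rw [show -(P.s - 1) = 1 - P.s by ring] at hcof
    have hden : 1 / ((0.07 * ((k : ℝ) * Real.log 2)) ^ 2) ^ 2 ≤ 390625 / (k : ℝ) ^ 4 := by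
      rw [div_le_div_iff₀ (by positivity) (by positivity)]
      have e1 : (0.04 : ℝ) * k ≤ 0.07 * (k * Real.log 2) := by nlinarith
      have e2 : ((0.04 : ℝ) * k) ^ 4 ≤ (0.07 * (k * Real.log 2)) ^ 4 :=
        pow_le_pow_left₀ (by positivity) e1 4
      have e3 : ((0.07 * ((k : ℝ) * Real.log 2)) ^ 2) ^ 2 = (0.07 * (k * Real.log 2)) ^ 4 := by
        ring
      rw [e3]
      have e4 : 390625 * ((0.04 : ℝ) * k) ^ 4 = (k : ℝ) ^ 4 := by ring
      linarith
    calc (r : ℝ) ^ (P.s - 1) / ((0.07 * ((k : ℝ) * Real.log 2)) ^ 2) ^ 2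
        = (r : ℝ) ^ (P.s - 1) * (1 / ((0.07 * ((k : ℝ) * Real.log 2)) ^ 2) ^ 2) := by ring
      _ ≤ ((2 : ℝ) ^ ((P.s - 1) * k) * (b : ℝ) ^ (1 - P.s)) * (390625 / (k : ℝ) ^ 4) :=
          mul_le_mul hcof hden (by positivity) (by positivity)) (by
    intro b hb
    rw [hM]
    exact mul_nonneg (hw.WW_nonneg S hk01 _) (by positivity)) (by
    intro b hb
    obtain ⟨c1, c3, c4⟩ := hbF b hb
    have hb0 : (0 : ℝ) < b := by exact_mod_cast c3
    have f1 := card_fib (P := P) (k := k) (j := j) c3 (F.filter (fun n => S.cp n = b)) (by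
      intro n hn
      rw [Finset.mem_filter, hF, Finset.mem_filter] at hn
      exact hn.1.1) (by
      intro n hn
      rw [Finset.mem_filter] at hn
      have := (hcpF n hn.1).2.2.1
      rw [hn.2] at this
      exact this)
    refine f1.trans ?_
    rw [hN]
    simp only
    have hb2 : (b : ℝ) ≤ (2 : ℝ) ^ P.e k := by
      refine c1.le.trans (le_trans ?_ he1)
      apply Real.rpow_le_rpow_of_exponent_le (by norm_num)
      nlinarith
    have f2 : (1 : ℝ) ≤ (2 : ℝ) ^ P.e k / b := by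
      rw [le_div_iff₀ hb0]
      linarith
    have f3 : 2 * (2 : ℝ) ^ P.e k / b = (2 : ℝ) ^ P.e k / b + (2 : ℝ) ^ P.e k / b := by ring
    rw [f3]
    linarith)
  refine hsum.trans ?_
  have hterm : ∀ b ∈ F.image S.cp, N b * M b =
      (2 * (2 : ℝ) ^ P.e k * (2 : ℝ) ^ ((P.s - 1) * k) * (390625 / (k : ℝ) ^ 4)) *
        (S.WW b * (b : ℝ) ^ (-P.s)) := by
    intro b hb
    have hb0 : (0 : ℝ) < b := by exact_mod_cast (hbF b hb).2.1
    have e1 : (b : ℝ) ^ (1 - P.s) = b * (b : ℝ) ^ (-P.s) := by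
      rw [show (1 : ℝ) - P.s = 1 + (-P.s) by ring, Real.rpow_add hb0, Real.rpow_one]
    rw [hN, hM]
    simp only
    rw [e1]
    field_simp
  rw [Finset.sum_congr rfl hterm, ← Finset.mul_sum]
  have hRk := hR 1 le_rfl (F.image S.cp) (fun b hb => by
    obtain ⟨c1, c3, c4⟩ := hbF b hb
    exact ⟨by exact_mod_cast c3, c3, c4⟩)
  rw [Real.one_rpow, mul_one] at hRk
  have hpos : (0 : ℝ) ≤ 2 * (2 : ℝ) ^ P.e k * (2 : ℝ) ^ ((P.s - 1) * k) *
      (390625 / (k : ℝ) ^ 4) := by positivity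
  refine (mul_le_mul_of_nonneg_left hRk hpos).trans ?_
  unfold Par.Gk
  have hGG : (0 : ℝ) < (2 : ℝ) ^ P.e k * (2 : ℝ) ^ ((P.s - 1) * k) := by positivity
  have hfin' : 4 * (390625 / (k : ℝ) ^ 4) ≤ ε * (1 / 2000 / (k : ℝ) ^ 3) := by
    rw [← sub_nonneg]
    have : ε * (1 / 2000 / (k : ℝ) ^ 3) - 4 * (390625 / (k : ℝ) ^ 4) =
      (ε * k - 4 * 390625 * 2000) / (2000 * (k : ℝ) ^ 4) := by
      field_simp
    rw [this]
    apply div_nonneg _ (by positivity)
    linarith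
  calc 2 * (2 : ℝ) ^ P.e k * (2 : ℝ) ^ ((P.s - 1) * k) * (390625 / (k : ℝ) ^ 4) * 2
      = ((2 : ℝ) ^ P.e k * (2 : ℝ) ^ ((P.s - 1) * k)) * (4 * (390625 / (k : ℝ) ^ 4)) := by ring
    _ ≤ ((2 : ℝ) ^ P.e k * (2 : ℝ) ^ ((P.s - 1) * k)) * (ε * (1 / 2000 / (k : ℝ) ^ 3)) :=
        mul_le_mul_of_nonneg_left hfin' hGG.le
    _ = ε * (1 / 2000 * 2 ^ P.e k * (2 : ℝ) ^ ((P.s - 1) * k) / (k : ℝ) ^ 3) := by ring

end Pool.Agent.Helper70.QRH
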