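import Pool.Agent.Helper70.QRH.Cls

/-!
# Project QRH: class III (large control part, all control primes small)
-/

set_option autoImplicit false
open Filter Topology
open scoped Classical

namespace Pool.Agent.Helper70.QRH

open Pool.Agent.Helper10.QRH

theorem class3 (P : Par) (h0 : PhiFacts P) (hc : CellFacts P) (h1 : SizeFacts P) (hw : WFacts P)
    (hz : WtSize P) (hr : Rankin P) : Class3 P := by
  intro ε hε
  obtain ⟨K1, hK1⟩ := h1
  obtain ⟨K2, hK2⟩ := hz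
  obtain ⟨K3, hK3⟩ := hr
  have hκ0 := P.κ0
  obtain ⟨K4, hK4⟩ := ev_small 8000 (P.κ / 50) ε 3 (by positivity) hε
  obtain ⟨hν0, hν1, hνκ, -, -, hd, hs, hg0, hg1, -⟩ := h0.small
  refine ⟨max (max K1 K2) (max K3 (max K4 1)), fun k0 hk0 hFB S k hk j hj => ?_⟩
  have hk1 : K1 ≤ k := by omega
  have hk2 : K2 ≤ k0 := by omega
  have hk3 : K3 ≤ k0 := by omega
  have hk4 : K4 ≤ k := by omega
  have hk01 : 1 ≤ k0 := by omega
  have hkp : 1 ≤ k := by omega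
  have hkr : (1 : ℝ) ≤ k := by exact_mod_cast hkp
  obtain ⟨-, -, he1, -, -, -, -, -, -⟩ := hK1 k hk1
  obtain ⟨-, -, hz3⟩ := hK2 k0 hk2 hFB S
  have hR := hK3 k0 hk3 hFB S
  have hfin := hK4 k hk4
  set F := (P.cell k j).filter (fun n => (2 : ℝ) ^ ((k : ℝ) / 20) ≤ S.cp n ∧
      ∀ p, S.ctrl p → p ∣ n → (p : ℝ) < (2 : ℝ) ^ ((k : ℝ) / 10)) with hF
  set A : ℝ := (2 : ℝ) ^ ((k : ℝ) / 20) with hA
  set L : ℝ := (2 : ℝ) ^ ((k : ℝ) / 10) with hL
  have hA1 : 1 ≤ A := Real.one_le_rpow (by norm_num) (by positivity)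
  have hL1 : 1 < L := Real.one_lt_rpow (by norm_num) (by positivity)
  have hAL : A * L ≤ (2 : ℝ) ^ P.e k := by
    refine le_trans ?_ he1
    rw [hA, hL, ← Real.rpow_add (by norm_num)]
    apply Real.rpow_le_rpow_of_exponent_le (by norm_num)
    nlinarith
  have hb : ∀ n ∈ F, ∃ b : ℕ, b ∣ n ∧ A ≤ b ∧ (b : ℝ) < A * L ∧
      (∀ p : ℕ, p.Prime → p ∣ b → S.ctrl p) := by
    intro n hn
    rw [hF, Finset.mem_filter] at hn
    obtain ⟨hn1, hn2, hn3⟩ := hn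
    obtain ⟨hn0, -⟩ := mem_cell' hc hj hn1
    obtain ⟨c1, c2, c3, c4, c5⟩ := hw.cp_facts S hn0
    obtain ⟨b, hb1, hb2, hb3⟩ := exists_dvd hA1 hL1 (S.cp n) hn2 (fun p hp hpd =>
      hn3 p (c4 p hp hpd) (hpd.trans c1))
    exact ⟨b, hb1.trans c1, hb2, hb3, fun p hp hpd => c4 p hp (hpd.trans hb1)⟩
  choose! bf hbf using hb
  set M : ℕ → ℝ := fun b => S.WW b * ((2 : ℝ) ^ ((P.s - 1) * k) * (2 : ℝ) ^ (4 * P.g * k) *
    (b : ℝ) ^ (1 - P.s)) with hM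
  set N : ℕ → ℝ := fun b => 2 * (2 : ℝ) ^ P.e k / b with hN
  have hbF : ∀ b ∈ F.image bf, A ≤ b ∧ (b : ℝ) < A * L ∧ 0 < b ∧
      (∀ p : ℕ, p.Prime → p ∣ b → S.ctrl p) := by
    intro b hb
    rw [Finset.mem_image] at hb
    obtain ⟨n, hn, rfl⟩ := hb
    obtain ⟨c1, c2, c3, c4⟩ := hbf n hn
    refine ⟨c2, c3, ?_, c4⟩
    have : (0 : ℝ) < (bf n : ℝ) := by linarith
    exact_mod_cast this
  have hsum := sum_fib F bf S.WW M N (by
    intro n hn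
    obtain ⟨c1, c2, c3, c4⟩ := hbf n hn
    have hn' := hn
    rw [hF, Finset.mem_filter] at hn'
    obtain ⟨hn0, -, -, hn2, -⟩ := mem_cell' hc hj hn'.1
    obtain ⟨a, ha⟩ := c1
    have hb0 : 0 < bf n := by
      rcases Nat.eq_zero_or_pos (bf n) with h | h
      · rw [h, zero_mul] at ha; omega
      · exact h
    have ha0 : 0 < a := by
      rcases Nat.eq_zero_or_pos a with h | h
      · rw [h, mul_zero] at ha; omega
      · exact h
    have e1 : S.WW n = S.WW (bf n) * S.WW a := by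
      have := hw.WW_mul S hb0.ne' ha0.ne'
      rw [← ha] at this
      exact this
    rw [e1, hM]
    simp only
    apply mul_le_mul_of_nonneg_left _ (hw.WW_nonneg S hk01 _)
    refine (hz3 a ha0).trans ?_
    have ht : P.s - 1 + 4 * P.g ≤ 0 := by rw [hs]; linarith
    refine (cof_le (k := k) (b := bf n) (a := a) hb0 (by omega) ht).trans ?_
    have hb1 : (1 : ℝ) ≤ bf n := by exact_mod_cast hb0
    have e2 : (bf n : ℝ) ^ (-(P.s - 1 + 4 * P.g)) ≤ (bf n : ℝ) ^ (1 - P.s) := by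
      apply Real.rpow_le_rpow_of_exponent_le hb1
      linarith
    have e3 : (2 : ℝ) ^ ((P.s - 1 + 4 * P.g) * k) =
        (2 : ℝ) ^ ((P.s - 1) * k) * (2 : ℝ) ^ (4 * P.g * k) := by
      rw [← Real.rpow_add (by norm_num)]
      congr 1
      ring
    rw [e3]
    exact mul_le_mul_of_nonneg_left e2 (by positivity)) (by
    intro b hb
    rw [hM]
    exact mul_nonneg (hw.WW_nonneg S hk01 _) (by positivity)) (by
    intro b hb
    obtain ⟨c1, c2, c3, c4⟩ := hbF b hb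
    have hb0 : (0 : ℝ) < b := by exact_mod_cast c3
    have f1 := card_fib (P := P) (k := k) (j := j) c3 (F.filter (fun n => bf n = b)) (by
      intro n hn
      rw [Finset.mem_filter, hF, Finset.mem_filter] at hn
      exact hn.1.1) (by
      intro n hn
      rw [Finset.mem_filter] at hn
      have := (hbf n hn.1).1
      rw [hn.2] at this
      exact this)
    refine f1.trans ?_
    rw [hN]
    simp only
    have f2 : (1 : ℝ) ≤ (2 : ℝ) ^ P.e k / b := by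
      rw [le_div_iff₀ hb0]
      linarith
    have f3 : 2 * (2 : ℝ) ^ P.e k / b = (2 : ℝ) ^ P.e k / b + (2 : ℝ) ^ P.e k / b := by ring
    rw [f3]
    linarith)
  refine hsum.trans ?_
  have hterm : ∀ b ∈ F.image bf, N b * M b =
      (2 * (2 : ℝ) ^ P.e k * (2 : ℝ) ^ ((P.s - 1) * k) * (2 : ℝ) ^ (4 * P.g * k)) *
        (S.WW b * (b : ℝ) ^ (-P.s)) := by
    intro b hb
    have hb0 : (0 : ℝ) < b := by exact_mod_cast (hbF b hb).2.2.1
    have e1 : (b : ℝ) ^ (1 - P.s) = b * (b : ℝ) ^ (-P.s) := by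
      rw [show (1 : ℝ) - P.s = 1 + (-P.s) by ring, Real.rpow_add hb0, Real.rpow_one]
    rw [hN, hM]
    simp only
    rw [e1]
    field_simp
  rw [Finset.sum_congr rfl hterm, ← Finset.mul_sum]
  have hRk := hR A hA1 (F.image bf) (fun b hb => by
    obtain ⟨c1, c2, c3, c4⟩ := hbF b hb
    exact ⟨c1, c3, c4⟩)
  have hAκ : A ^ (-(P.κ / 2)) = (2 : ℝ) ^ (-(P.κ / 40 * k)) := by
    rw [hA, ← Real.rpow_mul (by norm_num)]
    congr 1
    ring
  rw [hAκ] at hRk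
  have hpos : (0 : ℝ) ≤ 2 * (2 : ℝ) ^ P.e k * (2 : ℝ) ^ ((P.s - 1) * k) *
      (2 : ℝ) ^ (4 * P.g * k) := by positivity
  refine (mul_le_mul_of_nonneg_left hRk hpos).trans ?_
  have hexp : (2 : ℝ) ^ (4 * P.g * k) * (2 : ℝ) ^ (-(P.κ / 40 * k)) ≤
      (2 : ℝ) ^ (-(P.κ / 50 * k)) := by
    rw [← Real.rpow_add (by norm_num)]
    apply Real.rpow_le_rpow_of_exponent_le (by norm_num)
    nlinarith
  unfold Par.Gk
  have hk3 : (0 : ℝ) < (k : ℝ) ^ 3 := by positivity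
  have hGG : (0 : ℝ) < (2 : ℝ) ^ P.e k * (2 : ℝ) ^ ((P.s - 1) * k) := by positivity
  have hfin' : 4 * (2 : ℝ) ^ (-(P.κ / 50 * k)) ≤ ε * (1 / 2000 / (k : ℝ) ^ 3) := by
    rw [← sub_nonneg]
    have : ε * (1 / 2000 / (k : ℝ) ^ 3) - 4 * (2 : ℝ) ^ (-(P.κ / 50 * k)) =
      (ε - 8000 * (k : ℝ) ^ 3 * (2 : ℝ) ^ (-(P.κ / 50 * k))) / (2000 * (k : ℝ) ^ 3) := by
      field_simp
      ring
    rw [this]
    apply div_nonneg _ (by positivity)
    linarith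
  calc 2 * (2 : ℝ) ^ P.e k * (2 : ℝ) ^ ((P.s - 1) * k) * (2 : ℝ) ^ (4 * P.g * k) *
        (2 * (2 : ℝ) ^ (-(P.κ / 40 * k)))
      = ((2 : ℝ) ^ P.e k * (2 : ℝ) ^ ((P.s - 1) * k)) *
        (4 * ((2 : ℝ) ^ (4 * P.g * k) * (2 : ℝ) ^ (-(P.κ / 40 * k)))) := by ring
    _ ≤ ((2 : ℝ) ^ P.e k * (2 : ℝ) ^ ((P.s - 1) * k)) * (4 * (2 : ℝ) ^ (-(P.κ / 50 * k))) := by
        apply mul_le_mul_of_nonneg_left _ hGG.le
        linarith
    _ ≤ ((2 : ℝ) ^ P.e k * (2 : ℝ) ^ ((P.s - 1) * k)) * (ε * (1 / 2000 / (k : ℝ) ^ 3)) :=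
        mul_le_mul_of_nonneg_left hfin' hGG.le
    _ = ε * (1 / 2000 * 2 ^ P.e k * (2 : ℝ) ^ ((P.s - 1) * k) / (k : ℝ) ^ 3) := by ring

end Pool.Agent.Helper70.QRH
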