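import Pool.Agent.Helper10.QRH.StC

/-!
# Project QRH: common tools for the classes I, II, III
-/

set_option autoImplicit false
open Filter Topology
open scoped Classical

namespace Pool.Agent.Helper70.QRH

open Pool.Agent.Helper10.QRH

/-- a polynomial times a decaying exponential is eventually small -/
theorem ev_small (A c ε : ℝ) (m : ℕ) (hc : 0 < c) (hε : 0 < ε) :
    ∃ K0 : ℕ, ∀ k : ℕ, K0 ≤ k → A * (k : ℝ) ^ m * (2 : ℝ) ^ (-(c * k)) ≤ ε := by
  have hr : |(2 : ℝ) ^ (-c)| < 1 := by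
    rw [abs_of_pos (by positivity)]
    exact Real.rpow_lt_one_of_one_lt_of_neg (by norm_num) (by linarith)
  have h1 := (tendsto_pow_const_mul_const_pow_of_abs_lt_one m hr).const_mul A
  rw [mul_zero] at h1
  have h2 := h1.eventually (ge_mem_nhds hε)
  rw [eventually_atTop] at h2
  obtain ⟨K0, hK0⟩ := h2
  refine ⟨K0, fun k hk => ?_⟩
  have h3 := hK0 k hk
  have h4 : (2 : ℝ) ^ (-(c * k)) = ((2 : ℝ) ^ (-c)) ^ k := by
    rw [← Real.rpow_natCast, ← Real.rpow_mul (by norm_num)]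
    congr 1
    ring
  rw [h4]
  linarith

/-- counting multiples of `b` in an interval -/
theorem card_mult {b x h : ℕ} (hb : 0 < b) (T : Finset ℕ)
    (hT : ∀ a ∈ T, x ≤ b * a ∧ b * a < x + h) : (T.card : ℝ) ≤ (h : ℝ) / b + 1 := by
  have hb' : (0 : ℝ) < b := by exact_mod_cast hb
  have hsub : T ⊆ Finset.Ico ⌈(x : ℝ) / b⌉₊ ⌈((x : ℝ) + h) / b⌉₊ := by
    intro a ha
    obtain ⟨h1, h2⟩ := hT a ha
    rw [Finset.mem_Ico]
    constructor
    · rw [Nat.ceil_le, div_le_iff₀ hb']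
      have : (x : ℝ) ≤ b * a := by exact_mod_cast h1
      linarith
    · rw [Nat.lt_ceil, lt_div_iff₀ hb']
      have : (b : ℝ) * a < x + h := by exact_mod_cast h2
      linarith
  have h1 := Finset.card_le_card hsub
  rw [Nat.card_Ico] at h1
  have h2 : ((⌈((x : ℝ) + h) / b⌉₊ - ⌈(x : ℝ) / b⌉₊ : ℕ) : ℝ) ≤ (h : ℝ) / b + 1 := by
    have h3 : (⌈((x : ℝ) + h) / b⌉₊ : ℝ) < ((x : ℝ) + h) / b + 1 :=
      Nat.ceil_lt_add_one (by positivity)
    have h4 : (x : ℝ) / b ≤ (⌈(x : ℝ) / b⌉₊ : ℝ) := Nat.le_ceil _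
    have h5 : ((x : ℝ) + h) / b = (x : ℝ) / b + (h : ℝ) / b := add_div _ _ _
    rcases le_total ⌈(x : ℝ) / b⌉₊ ⌈((x : ℝ) + h) / b⌉₊ with h6 | h6
    · rw [Nat.cast_sub h6]
      linarith
    · rw [Nat.sub_eq_zero_of_le h6]
      have : 0 ≤ (h : ℝ) / b := by positivity
      simp only [Nat.cast_zero]
      linarith
  have h3 : (T.card : ℝ) ≤ ((⌈((x : ℝ) + h) / b⌉₊ - ⌈(x : ℝ) / b⌉₊ : ℕ) : ℝ) := by
    exact_mod_cast h1
  linarith

/-- summing over the fibres of a map -/
theorem sum_fib (F : Finset ℕ) (bf : ℕ → ℕ) (W M N : ℕ → ℝ) (hW : ∀ n ∈ F, W n ≤ M (bf n))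
    (hM : ∀ b ∈ F.image bf, 0 ≤ M b)
    (hN : ∀ b ∈ F.image bf, ((F.filter (fun n => bf n = b)).card : ℝ) ≤ N b) :
    ∑ n ∈ F, W n ≤ ∑ b ∈ F.image bf, N b * M b := by
  rw [← Finset.sum_fiberwise_of_maps_to (g := bf) (t := F.image bf)
    (fun n hn => Finset.mem_image_of_mem _ hn)]
  apply Finset.sum_le_sum
  intro b hb
  calc ∑ n ∈ F.filter (fun n => bf n = b), W n
      ≤ ∑ n ∈ F.filter (fun n => bf n = b), M b := by
        apply Finset.sum_le_sum
        intro n hn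
        rw [Finset.mem_filter] at hn
        have := hW n hn.1
        rw [hn.2] at this
        exact this
    _ = ((F.filter (fun n => bf n = b)).card : ℝ) * M b := by
        rw [Finset.sum_const, nsmul_eq_mul]
    _ ≤ N b * M b := mul_le_mul_of_nonneg_right (hN b hb) (hM b hb)

/-- a number with small prime factors has a divisor in every not too short interval -/
theorem exists_dvd {A L : ℝ} (hA : 1 ≤ A) (hL : 1 < L) : ∀ c : ℕ, A ≤ c →
    (∀ p : ℕ, p.Prime → p ∣ c → (p : ℝ) < L) → ∃ b : ℕ, b ∣ c ∧ A ≤ b ∧ (b : ℝ) < A * L := by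
  intro c
  induction c using Nat.strong_induction_on with
  | _ c ih =>
    intro hc hp
    by_cases h1 : (c : ℝ) < A * L
    · exact ⟨c, dvd_rfl, hc, h1⟩
    · push Not at h1
      have hc1 : (1 : ℝ) < c := by nlinarith
      have hc1' : 1 < c := by exact_mod_cast hc1
      have hpr : c.minFac.Prime := Nat.minFac_prime (by omega)
      obtain ⟨d, hd⟩ := Nat.minFac_dvd c
      have hpL := hp _ hpr (Nat.minFac_dvd c)
      have hd0 : 0 < d := by
        rcases Nat.eq_zero_or_pos d with h | h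
        · rw [h, mul_zero] at hd; omega
        · exact h
      have hdc : d < c := by
        have := hpr.two_le
        nlinarith
      have hd' : (c : ℝ) = c.minFac * d := by exact_mod_cast hd
      have hAd : A ≤ d := by
        have hd0' : (0 : ℝ) < d := by exact_mod_cast hd0
        have h2 : A * L ≤ L * d := by
          calc A * L ≤ c := h1
            _ = c.minFac * d := hd'
            _ ≤ L * d := by nlinarith
        nlinarith
      obtain ⟨b, hb1, hb2, hb3⟩ := ih d hdc hAd (fun p hp1 hp2 =>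
        hp p hp1 (hp2.trans (Dvd.intro_left _ hd.symm)))
      exact ⟨b, hb1.trans (Dvd.intro_left _ hd.symm), hb2, hb3⟩

/-- elements of a cell -/
theorem mem_cell' {P : Par} (hc : CellFacts P) {k j n : ℕ} (hj : j < 2 ^ (k - P.e k))
    (hn : n ∈ P.cell k j) : n ≠ 0 ∧ Nat.log 2 n = k ∧ P.idx n = j ∧ 2 ^ k ≤ n ∧ n < 2 ^ (k + 1) ∧
      2 ^ k + j * 2 ^ P.e k ≤ n ∧ n < 2 ^ k + j * 2 ^ P.e k + 2 ^ P.e k := by
  have h1 := (hc.mem_cell hj).mp hn
  unfold Par.cell at hn
  rw [Finset.mem_Ico] at hn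
  refine ⟨h1.1, h1.2.1, h1.2.2, ?_, ?_, hn.1, ?_⟩
  · have := Nat.pow_log_le_self 2 h1.1
    rw [h1.2.1] at this
    exact this
  · have := Nat.lt_pow_succ_log_self (b := 2) (by norm_num) n
    rw [h1.2.1] at this
    exact this
  · have := hn.2
    linarith [this, Nat.add_mul j 1 (2 ^ P.e k)]

/-- the number of elements of a cell with a given divisor -/
theorem card_fib {P : Par} {k j b : ℕ} (hb : 0 < b) (F : Finset ℕ) (hF : F ⊆ P.cell k j)
    (hd : ∀ n ∈ F, b ∣ n) : (F.card : ℝ) ≤ (2 : ℝ) ^ P.e k / b + 1 := by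
  have h1 : F.card ≤ (F.image (fun n => n / b)).card := by
    rw [Finset.card_image_of_injOn]
    intro n hn m hm hnm
    simp only at hnm
    obtain ⟨c, hc⟩ := hd n hn
    obtain ⟨d, hd⟩ := hd m hm
    rw [hc, hd, Nat.mul_div_cancel_left _ hb, Nat.mul_div_cancel_left _ hb] at hnm
    rw [hc, hd, hnm]
  have h2 := card_mult (x := 2 ^ k + j * 2 ^ P.e k) (h := 2 ^ P.e k) hb
    (F.image (fun n => n / b)) (by
      intro a ha
      rw [Finset.mem_image] at ha
      obtain ⟨n, hn, rfl⟩ := ha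
      rw [Nat.mul_div_cancel' (hd n hn)]
      have h3 := hF hn
      unfold Par.cell at h3
      rw [Finset.mem_Ico] at h3
      refine ⟨h3.1, ?_⟩
      have := h3.2
      rw [add_mul, one_mul] at this
      omega)
  have h3 : (F.card : ℝ) ≤ ((F.image (fun n => n / b)).card : ℝ) := by exact_mod_cast h1
  push_cast at h2
  linarith

/-- powers of two: the upper bound for a cofactor -/
theorem cof_le {k b a : ℕ} {t : ℝ} (hb : 0 < b) (hab : 2 ^ k ≤ b * a) (ht : t ≤ 0) :
    (a : ℝ) ^ t ≤ (2 : ℝ) ^ (t * k) * (b : ℝ) ^ (-t) := by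
  have hb' : (0 : ℝ) < b := by exact_mod_cast hb
  have h1 : (2 : ℝ) ^ k / b ≤ a := by
    rw [div_le_iff₀ hb']
    have : ((2 ^ k : ℕ) : ℝ) ≤ ((b * a : ℕ) : ℝ) := by exact_mod_cast hab
    push_cast at this
    linarith
  have h2 : (0 : ℝ) < (2 : ℝ) ^ k / b := by positivity
  have h3 := Real.rpow_le_rpow_of_nonpos h2 h1 ht
  refine h3.trans (le_of_eq ?_)
  rw [Real.div_rpow (by positivity) hb'.le, ← Real.rpow_natCast, ← Real.rpow_mul (by norm_num),
    Real.rpow_neg hb'.le, div_eq_mul_inv]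
  congr 2
  ring

end Pool.Agent.Helper70.QRH
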